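import Pool.Agent.H8.BV.Var
import Pool.Agent.H8.BIG.All
import Pool.Agent.H18.VZ.FinZZ
import Pool.Agent.H11.BV.JAC
import Pool.Agent.H21.BV.LSX
import Pool.Agent.H39.BV.GLX
import Pool.Agent.H86.BV.NRD
import Pool.Agent.H99.BV.GEX
import Pool.Agent.H54.BV.LAI
import Pool.Agent.H29.BV.MUX
import Pool.Agent.H33.BV.CLX
import Pool.Agent.H46.BV.LNP
import Pool.Agent.H26.BV.PEN
import Pool.Agent.H24.BV.RDP
import Pool.Agent.H56.BV.NSX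
import Pool.Agent.H45.BV.TOV
import Pool.Agent.H58.BV.FBV
import Pool.Agent.H58.BV.SUR
import Pool.Agent.H58.BV.VKT
import Pool.Agent.H52.BV.LIX
import Pool.Agent.H52.BV.NRV

/-!
# Large topological degree on arbitrary varieties: the rows together
-/

open MvPolynomial
open Pool.Agent.H12.ZD (pmap)
open Pool.Agent.H18.HIT Pool.Agent.H18.HX Pool.Agent.H18.VZ Pool.Agent.H18.VP

namespace Pool.Agent.H8.BV.All

theorem bvh (k : Type) [Field k] [IsAlgClosed k] [CharZero k] (hk : Ftd k) : T_BVH k :=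
  pf_BVH k (Facts.cor k hk) Facts.bas Pool.Agent.H18.HX.All.nrx Facts.cne
    Pool.Agent.H18.HX.All.cni Pool.Agent.H18.HX.All.cdv Facts.spx Pool.Agent.H11.BV.pf_JAC
    (Pool.Agent.H52.BV.pf_LIX (Pool.Agent.H21.BV.pf_LSX Pool.Agent.H8.BIG.All.fcl))
    (Pool.Agent.H39.BV.pf_GLX Pool.Agent.H8.BIG.All.fcl)
    (Pool.Agent.H99.BV.pf_GEX Pool.Agent.H86.BV.pf_NRD Pool.Agent.H8.BIG.All.gen)
    (Pool.Agent.H29.BV.pf_MUX (Pool.Agent.H54.BV.pf_LAI Pool.Agent.H48.HIT.pf_KER))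
    Pool.Agent.H33.BV.pf_CLX Pool.Agent.H46.BV.pf_LNP Pool.Agent.H26.BV.pf_PEN
    Pool.Agent.H24.BV.pf_RDP Pool.Agent.H56.BV.pf_NSX Pool.Agent.H52.BV.pf_NRV
    Pool.Agent.H45.BV.pf_TOV Pool.Agent.H58.BV.pf_FBV

/-- maps of large topological degree on arbitrary varieties -/
theorem finalB {L : ℕ} {k : Type} [Field k] [IsAlgClosed k] [CharZero k] (hk : Ftd k)
    {I : Ideal (Po L k)} (hI : I.IsPrime) (hhom : ∀ c ∈ I, ∀ t, homogeneousComponent t c ∈ I)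
    (hne : ∃ i, X i ∉ I) (f : Tup L k) (b : Po L k) (d e m n t : ℕ) (hd : 1 ≤ d)
    (hf : ∀ i, (f i).IsHomogeneous d) (hinv : ∀ c ∈ I, aeval f c ∈ I) (hcov : Pvi I f e)
    (hn : 1 ≤ n) (hm : m < e ^ n)
    (hK : ∀ (s : ℕ) (q : Po L k), q.IsHomogeneous s → Irreducible q → q ∉ I →
      ∃ (s' : ℕ) (q' : Po L k), s' ≤ m * s ∧ q'.IsHomogeneous s' ∧ q' ∉ I ∧
        ∀ y, Zer I y → eval y q = 0 → eval ((pmap f)^[n] y) q' = 0)
    (hb : b.IsHomogeneous t) (hbI : b ∉ I) :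
    ∃ x : Fin L → k, Zer I x ∧ (∀ j : ℕ, (pmap f)^[j] x ≠ 0) ∧
      (∀ j : ℕ, eval ((pmap f)^[j] x) b ≠ 0) ∧
      ∀ (s : ℕ) (h : Po L k), h.IsHomogeneous s → (∀ j : ℕ, eval ((pmap f)^[j] x) h = 0) →
        h ∈ I := by
  refine varB (bvh k hk) Pool.Agent.H18.HX.All.nsi Pool.Agent.H18.HX.All.pvi
    Pool.Agent.H18.HX.All.nfa Pool.Agent.H18.HX.All.nfb Pool.Agent.H18.HX.All.nfc
    Pool.Agent.H18.HX.All.lft Pool.Agent.H18.HX.pf_TWI Pool.Agent.H18.HX.All.trv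
    Pool.Agent.H58.BV.pf_SUR Pool.Agent.H58.BV.pf_VKT hI hhom hne f b d e m n t hd hf hinv hcov hn
    (ki_of_irr fun s q hq hirr hqI => ?_) hm hb hbI
  obtain ⟨s', q', h1, h2, h3, h4⟩ := hK s q hq hirr hqI
  exact ⟨s', q', h1, h2, h3, fun y hy hyq => by rw [pmap_it]; exact h4 y hy hyq⟩

end Pool.Agent.H8.BV.All
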