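import Pool.Agent.H8.BV.Targets
import Pool.Agent.H18.HX.Basic
import Pool.Agent.H18.HIT.PN
import Pool.Agent.H49.VZ.Base
import Pool.Agent.H13.HX.TargetsK
import Pool.Agent.H8.BIG.BP

/-!
# Large topological degree on hypersurfaces: the theorem
-/

open MvPolynomial
open Pool.Agent.H12.ZD (pmap)
open Pool.Agent.H18.HIT Pool.Agent.H18.HX Pool.Agent.H18.VZ
open Pool.Agent.H8.BIG (KF line num_contra)

namespace Pool.Agent.H8.BV

section

variable {L : ℕ} {k : Type} [Field k] {I : Ideal (Po L k)} {T : Tup L k}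

/-- the condition for iterates -/
theorem ki_it [I.IsPrime] (hT : ∀ c ∈ I, aeval T c ∈ I) {m : ℕ} (h : KI I T m) (n : ℕ) :
    KI I (it T n) (m ^ n) := by
  induction n with
  | zero =>
    intro s q hq hqI
    refine ⟨s, q, by rw [pow_zero, one_mul], hq, hqI, fun y _ hy => ?_⟩
    rw [pmap_it]
    exact hy
  | succ n ih =>
    intro s q hq hqI
    obtain ⟨s₁, q₁, hs₁, hq₁, hq₁I, hv₁⟩ := ih s q hq hqI
    obtain ⟨s₂, q₂, hs₂, hq₂, hq₂I, hv₂⟩ := h s₁ q₁ hq₁ hq₁I
    refine ⟨s₂, q₂, ?_, hq₂, hq₂I, fun y hy hyq => ?_⟩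
    · calc s₂ ≤ m * s₁ := hs₂
        _ ≤ m * (m ^ n * s) := Nat.mul_le_mul_left _ hs₁
        _ = m ^ (n + 1) * s := by ring
    · rw [pmap_it, Function.iterate_succ_apply']
      apply hv₂ _ (zer_iterate hT hy n)
      have h1 := hv₁ y hy hyq
      rwa [pmap_it] at h1

end

section

variable {N : ℕ} {k : Type} [Field k]

theorem up_component (t : ℕ) (c : Po N k) :
    homogeneousComponent t (up c) = up (homogeneousComponent t c) := by
  have h1 : up c = ∑ i ∈ Finset.range (c.totalDegree + 1 + t), up (homogeneousComponent i c) := by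
    have h2 : c = ∑ i ∈ Finset.range (c.totalDegree + 1 + t), homogeneousComponent i c := by
      conv_lhs => rw [← sum_homogeneousComponent c]
      apply Finset.sum_subset (Finset.range_mono (by omega))
      intro i _ hi
      apply homogeneousComponent_eq_zero
      rw [Finset.mem_range] at hi
      omega
    conv_lhs => rw [h2]
    rw [up, map_sum]
    rfl
  rw [h1, map_sum, Finset.sum_eq_single t]
  · have h3 : (up (homogeneousComponent t c)).IsHomogeneous t :=
      (homogeneousComponent_isHomogeneous t c).rename_isHomogeneous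
    rw [homogeneousComponent_of_mem ((mem_homogeneousSubmodule _ _).mpr h3), if_pos rfl]
  · intro i _ hi
    have h3 : (up (homogeneousComponent i c)).IsHomogeneous i :=
      (homogeneousComponent_isHomogeneous i c).rename_isHomogeneous
    rw [homogeneousComponent_of_mem ((mem_homogeneousSubmodule _ _).mpr h3), if_neg (Ne.symm hi)]
  · intro h
    exfalso
    apply h
    rw [Finset.mem_range]
    omega

end

/-- the conclusion of the row TOV for iterates -/
theorem tov_it {N : ℕ} {k : Type} [Field k] {P : Po (N + 1) k} {T : Tup (N + 1) k}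
    {V : Ideal (Po (N + 1) k)} {Δ : Po (N + 1) k} (hT : ∀ c ∈ Ideal.span {P}, aeval T c ∈
    Ideal.span {P}) (h : ∀ x : Fin (N + 1) → k, eval x P = 0 →
    (∀ q ∈ V, eval (pmap T x) q = 0) → eval (pmap T x) Δ ≠ 0 → ∀ q ∈ V, eval x q = 0) (n : ℕ) :
    ∀ x : Fin (N + 1) → k, eval x P = 0 → (∀ q ∈ V, eval ((pmap T)^[n] x) q = 0) →
      (∀ j, j ≤ n → eval ((pmap T)^[j] x) Δ ≠ 0) → ∀ q ∈ V, eval x q = 0 := by
  induction n with
  | zero => exact fun x _ hx _ => hx
  | succ n ih =>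
    intro x hx hxV hxΔ
    have hP1 : eval (pmap T x) P = 0 := zer_span.mp (zer_pmap hT (zer_span.mpr hx))
    apply h x hx
    · apply ih (pmap T x) hP1
      · rw [← Function.iterate_succ_apply]
        exact hxV
      · intro j hj
        rw [← Function.iterate_succ_apply]
        exact hxΔ (j + 1) (by omega)
    · exact hxΔ 1 (by omega)

theorem pf_BVH (k : Type) [Field k] [CharZero k] [IsAlgClosed k] (hCOR : T_COR k)
    (hBAS : T_BAS) (hNRX : T_NRX) (hCNE : T_CNE) (hCNI : T_CNI)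
    (hCDV : Pool.Agent.H13.HX.T_CDV) (hSPX : T_SPX) (hJAC : T_JAC) (hLIX : T_LIX)
    (hGLX : T_GLX) (hGEX : T_GEX) (hMUX : T_MUX) (hCLX : T_CLX) (hLNP : T_LNP) (hPEN : T_PEN)
    (hRDP : T_RDP) (hNSX : T_NSX) (hNRV : T_NRV) (hTOV : T_TOV) (hFBV : T_FBV) : T_BVH k := by
  classical
  intro N r d e m P b F hN hP hrd hd hF hs hcov hK hme hb hPb
  have hinf : Infinite k := IsAlgClosed.instInfinite
  have hpr := hP.irr.prime
  have hprime := isPrime_span hP.irr
  have hX1 : ∀ j : Fin N, ¬ P ∣ (X j.succ : Po (N + 1) k) := by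
    intro j h
    have h1 : (X j.succ : Po (N + 1) k) = up (X j) := by rw [up, rename_X]
    rw [h1] at h
    exact Pool.Agent.H49.VZ.not_dvd_up hP (X_ne_zero j) h
  obtain ⟨t₁, ht₁⟩ : ∃ t₁ : Fin N, t₁ = ⟨0, by omega⟩ := ⟨_, rfl⟩
  obtain ⟨mb, hmb⟩ := hb
  obtain ⟨n₁, hn₁, hcor⟩ := hCOR N r d P (b * X t₁.succ) F hN hP hrd hF hs
    ⟨mb + 1, hmb.mul (isHomogeneous_X _ _)⟩ (fun h => (hpr.dvd_or_dvd h).elim hPb (hX1 t₁))
  have hsT : Slf (Ideal.span {P}) (it F n₁) := hs.it n₁
  have hThom : ∀ i, (it F n₁ i).IsHomogeneous (d ^ n₁) := it_hom hF n₁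
  have hD2 : 2 ≤ d ^ n₁ := by
    calc 2 ≤ d := hd
      _ = d ^ 1 := (pow_one d).symm
      _ ≤ d ^ n₁ := Nat.pow_le_pow_right (by omega) hn₁
  have hTP : P ∣ aeval (it F n₁) P :=
    Ideal.mem_span_singleton.mp (hsT.inv _ (Ideal.mem_span_singleton_self P))
  obtain ⟨E, θ, Δ, hB, hcv⟩ := hBAS N k P (it F n₁) hP.irr hP.mon hsT
  obtain ⟨cG, hcG, hcG'⟩ := id hcv
  rw [Ideal.mem_span_singleton] at hcG
  obtain ⟨ρ, Aρ, Bρ, hρ0, hρ⟩ := hSPX N r k P hP
  have hdP : ¬ P ∣ pderiv 0 P := by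
    intro h
    apply Pool.Agent.H49.VZ.not_dvd_up hP hρ0
    rw [hρ]
    exact (dvd_mul_left P Aρ).add (h.mul_left Bρ)
  have hJ := hJAC N k P (it F n₁) hP.irr hP.mon hsT
  -- the polynomial which must not vanish at the point
  obtain ⟨g, Ag, hg0, hg⟩ := hNRX N k P (Δ * (cG * (jac (pt P (it F n₁)) * pderiv 0 P))) hP.irr
    hP.mon (fun h => by
      rcases hpr.dvd_or_dvd h with h | h
      · exact hB.ne h
      rcases hpr.dvd_or_dvd h with h | h
      · exact hcG h
      rcases hpr.dvd_or_dvd h with h | h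
      · exact hJ h
      · exact hdP h)
  obtain ⟨x, hxP, hxb, hxg, hVp, hVt, -⟩ := hcor E θ Δ hB hcv g hg0
  obtain ⟨V, hV⟩ : ∃ V, V = van (it F n₁) x := ⟨_, rfl⟩
  rw [← hV] at hVp hVt
  have hx1 : eval x (Δ * (cG * (jac (pt P (it F n₁)) * pderiv 0 P))) ≠ 0 := by
    intro h0
    apply hxg
    obtain ⟨B', hB'⟩ := hg
    have h1 := congrArg (eval x) hB'
    rw [map_sub, map_mul _ _ Ag, map_mul (eval x) P, hxP, h0, zero_mul, zero_mul, sub_zero] at h1
    exact h1
  have hnot : ∀ q : Po (N + 1) k, eval x q ≠ 0 → q ∉ V := by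
    intro q hq h
    rw [hV] at h
    exact hq (h 0)
  rw [map_mul, map_mul, map_mul] at hx1
  have hΔV : Δ ∉ V := hnot _ (left_ne_zero_of_mul hx1)
  have hcGV : cG ∉ V := hnot _ (left_ne_zero_of_mul (right_ne_zero_of_mul hx1))
  have hJV : jac (pt P (it F n₁)) ∉ V :=
    hnot _ (left_ne_zero_of_mul (right_ne_zero_of_mul (right_ne_zero_of_mul hx1)))
  have hdV : pderiv 0 P ∉ V :=
    hnot _ (right_ne_zero_of_mul (right_ne_zero_of_mul (right_ne_zero_of_mul hx1)))
  have hq₀V : Δ * (jac (pt P (it F n₁)) * pderiv 0 P) ∉ V := by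
    intro h
    rcases hVp.mem_or_mem h with h | h
    · exact hΔV h
    rcases hVp.mem_or_mem h with h | h
    · exact hJV h
    · exact hdV h
  have hzer := zer_span.mpr hxP
  have hPV : P ∈ V := by
    rw [hV]
    intro n
    exact zer_iterate hsT.inv hzer n P (Ideal.mem_span_singleton_self P)
  have hHm : Hmi V := by
    rw [hV]
    rw [hV] at hΔV hVp hVt
    exact hCNE N r (d ^ n₁) E k P (it F n₁) θ Δ x hP hD2 hThom hsT hB hxP hVp hVt hΔV
  have hne0 : ∀ n, (pmap (it F n₁))^[n] x ≠ 0 := by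
    intro n h
    apply hxb (n₁ * n)
    rw [← pmap_it_iterate, h, map_mul, eval_X, Pi.zero_apply, mul_zero]
  have hmain : ∀ c ∈ V, P ∣ c := by
    intro c hc
    by_contra hPc
    obtain ⟨c', A', hc'0, hc'⟩ := hNRX N k P c hP.irr hP.mon hPc
    have hupV : up c' ∈ V := by
      obtain ⟨B', hB'⟩ := hc'
      have h1 : up c' = P * B' + c * A' := by rw [← hB']; ring
      rw [h1]
      exact V.add_mem (V.mul_mem_right _ hPV) (V.mul_mem_right _ hc)
    obtain ⟨s, hs0⟩ : ∃ s, homogeneousComponent s c' ≠ 0 := by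
      by_contra hcon
      push Not at hcon
      apply hc'0
      rw [← sum_homogeneousComponent c']
      exact Finset.sum_eq_zero fun i _ => hcon i
    obtain ⟨S, hSdef⟩ : ∃ S, S = homogeneousComponent s c' := ⟨_, rfl⟩
    have hSh : S.IsHomogeneous s := by rw [hSdef]; exact homogeneousComponent_isHomogeneous _ _
    have hS0 : S ≠ 0 := by rw [hSdef]; exact hs0
    have hSV : up S ∈ V := by
      rw [hSdef, ← up_component]
      exact hHm _ hupV s
    have hs1 : 1 ≤ s := by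
      by_contra h
      have h0 : s = 0 := by omega
      rw [h0] at hSh
      have h1 : S = C (coeff 0 S) := totalDegree_eq_zero_iff_eq_C.mp
        (Nat.le_zero.mp hSh.totalDegree_le)
      have h2 := hSV
      rw [hV] at h2
      have h3 := h2 0
      rw [Function.iterate_zero, id, h1, up, rename_C, eval_C] at h3
      apply hS0
      rw [h1, h3, C_0]
    have hXV : X t₁.succ ∉ V := by
      apply hnot
      have h1 := hxb 0
      rw [Function.iterate_zero, id, map_mul] at h1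
      exact right_ne_zero_of_mul h1
    rcases Nat.lt_or_ge N 2 with hN2 | hN2
    · -- the variety is a point
      have hN1 : N = 1 := by omega
      subst hN1
      have h1 : ∃ a : k, S = C a * X t₁ ^ s := by
        have h2 : ∀ j : Fin 1, j = t₁ := fun j => Subsingleton.elim _ _
        refine ⟨coeff (Finsupp.single t₁ s) S, ?_⟩
        ext u
        have h3 : u = Finsupp.single t₁ (u t₁) :=
          Finsupp.ext fun j => by rw [h2 j, Finsupp.single_eq_same]
        rw [coeff_C_mul, coeff_X_pow]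
        by_cases hu : u t₁ = s
        · rw [h3, hu, if_pos rfl, mul_one]
        · have h4 : coeff u S = 0 := by
            apply hSh.coeff_eq_zero
            rw [h3]
            intro h5
            apply hu
            have h6 : (Finsupp.single t₁ (u t₁) : Fin 1 →₀ ℕ).degree = u t₁ :=
              Finsupp.degree_single _ _
            rw [h6] at h5
            exact h5
          rw [h4, if_neg, mul_zero]
          intro h5
          apply hu
          rw [← h5, Finsupp.single_eq_same]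
      obtain ⟨a, ha⟩ := h1
      have ha0 : a ≠ 0 := by
        rintro rfl
        apply hS0
        rw [ha, C_0, zero_mul]
      rw [ha, up, map_mul, map_pow, rename_C, rename_X] at hSV
      rcases hVp.mem_or_mem hSV with h | h
      · have h2 := hnot (C a) (by rw [eval_C]; exact ha0)
        exact h2 h
      · exact hXV (hVp.mem_of_pow_mem _ h)
    -- the degree of the iterate
    have h1 := hCNI (N + 1) k (Ideal.span {P}) F (d * e) n₁ hs hcov
    have hE : (d * e) ^ n₁ ≤ E := by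
      refine hCDV (N + 1) ((d * e) ^ n₁) E k (Ideal.span {P}) (it F n₁) θ h1 hB.pos fun u => ?_
      obtain ⟨M, c, hc⟩ := hB.gen u
      refine ⟨Δ ^ M, c, ?_, ?_⟩
      · rw [Ideal.mem_span_singleton]
        exact fun h => hB.ne (hpr.dvd_of_dvd_pow h)
      · rw [Ideal.mem_span_singleton, map_pow]
        exact hc
    -- the exponent
    obtain ⟨i, hi1, hi⟩ := num_contra (A := e) (m := m) (k := n₁) (r := r * (r * s)) hn₁ hme
    obtain ⟨c₁, hc₁V, hc₁⟩ := hFBV N E k P (it F n₁) V cG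
      (Δ * (jac (pt P (it F n₁)) * pderiv 0 P)) hTP hVp
      (hNRV N E k P (it F n₁) θ Δ V hB hVp hPV hVt hΔV) hcGV (fun y hy hyc => by
        obtain ⟨S', hS', hS''⟩ := hcG' y (zer_span.mpr hy) hyc
        exact ⟨S', hS', fun z hz => ⟨zer_span.mp (hS'' z hz).1, (hS'' z hz).2⟩⟩) hq₀V i
    obtain ⟨m', hm'⟩ : ∃ m', eval ((pmap (it F n₁))^[m'] x) c₁ ≠ 0 := by
      by_contra h
      push Not at h
      apply hc₁V
      rw [hV]
      exact h
    obtain ⟨y₀, hy₀⟩ : ∃ y₀, y₀ = (pmap (it F n₁))^[m'] x := ⟨_, rfl⟩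
    have hy₀V : ∀ q ∈ V, eval y₀ q = 0 := by
      intro q hq
      rw [hV] at hq
      rw [hy₀]
      exact hq m'
    have hy₀P : eval y₀ P = 0 := hy₀V P hPV
    have hy₀0 : y₀ ≠ 0 := by rw [hy₀]; exact hne0 m'
    rw [← hy₀] at hm'
    obtain ⟨Sf, hSf, hSfx⟩ := hc₁ y₀ hy₀P hm'
    have hxV : ∀ z ∈ Sf, ∀ q ∈ V, eval z q = 0 := by
      intro z hz
      apply tov_it hsT.inv (hTOV N E k P (it F n₁) θ Δ V hB hPV hVt) i z (hSfx z hz).1
      · rw [(hSfx z hz).2.1]
        exact hy₀V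
      · intro j hj
        have h2 := (hSfx z hz).2.2 j hj
        rw [map_mul] at h2
        exact left_ne_zero_of_mul h2
    -- representatives
    have hTih : ∀ j, (it (it F n₁) i j).IsHomogeneous ((d ^ n₁) ^ i) := it_hom hThom i
    obtain ⟨S', hS'sub, hS'tl, hS'np, hS'card⟩ := hCLX N r ((d ^ n₁) ^ i) k P (it (it F n₁) i) y₀ Sf hP
      (Nat.one_le_pow _ _ (by omega)) hTih hy₀0 (fun z hz => ⟨(hSfx z hz).1, by
        rw [pmap_it]
        exact (hSfx z hz).2.1⟩)
    rw [hSf] at hS'card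
    have hepos : 1 ≤ e := by omega
    have hbig : (e ^ (n₁ * i)) ≤ r * S'.card := by
      have h2 : ((d * e) ^ n₁) ^ i ≤ r * (d ^ n₁) ^ i * S'.card :=
        (Nat.pow_le_pow_left hE _).trans hS'card
      have h3 : ((d * e) ^ n₁) ^ i = (d ^ n₁) ^ i * e ^ (n₁ * i) := by
        rw [mul_pow, mul_pow, ← pow_mul e]
      rw [h3] at h2
      have h4 : (d ^ n₁) ^ i * e ^ (n₁ * i) ≤ (d ^ n₁) ^ i * (r * S'.card) := by
        calc (d ^ n₁) ^ i * e ^ (n₁ * i) ≤ r * (d ^ n₁) ^ i * S'.card := h2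
          _ = (d ^ n₁) ^ i * (r * S'.card) := by ring
      exact Nat.le_of_mul_le_mul_left h4 (pow_pos (by omega) _)
    have hSfne : Sf.Nonempty := by
      rw [← Finset.card_pos, hSf]
      have h2 : 1 ≤ E := hB.pos
      exact pow_pos (by omega) _
    have hdy : eval y₀ (pderiv 0 P) ≠ 0 := by
      obtain ⟨z, hz⟩ := hSfne
      have h2 := (hSfx z hz).2.2 i le_rfl
      rw [(hSfx z hz).2.1, map_mul, map_mul] at h2
      exact right_ne_zero_of_mul (right_ne_zero_of_mul h2)
    obtain ⟨γ, hγ0, hγP, hγl⟩ := hGLX N k P y₀ hy₀P hdy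
    -- the fibre
    obtain ⟨pt₀, hpt₀⟩ : ∃ pt₀ : Fin S'.card → Fin (N + 1) → k,
        ∀ a, pt₀ a = (S'.equivFin.symm a : Fin (N + 1) → k) := ⟨_, fun _ => rfl⟩
    have hptS : ∀ a, pt₀ a ∈ Sf := fun a => by rw [hpt₀]; exact hS'sub (S'.equivFin.symm a).2
    have hlift : ∀ a, ∃ γ' : Fin (N + 1) → PowerSeries (KF N k),
        (∀ j, PowerSeries.constantCoeff (γ' j) = algebraMap k (KF N k) (pt₀ a j)) ∧
        aeval γ' P = 0 ∧ ∀ j, aeval γ' (it (it F n₁) i j) = γ j := by
      intro a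
      apply hLIX N i k (KF N k) P (it F n₁) (pt₀ a) γ hTP (hSfx _ (hptS a)).1 ?_ hγP ?_
      · intro j hj
        have h2 := (hSfx _ (hptS a)).2.2 j hj
        rw [map_mul, map_mul] at h2
        exact ⟨left_ne_zero_of_mul (right_ne_zero_of_mul h2),
          right_ne_zero_of_mul (right_ne_zero_of_mul h2)⟩
      · intro j
        rw [hγ0, (hSfx _ (hptS a)).2.1]
    choose z hz0 hzP hzT using hlift
    have hpt' : ∀ a, pt₀ a ∈ S' := fun a => by rw [hpt₀]; exact (S'.equivFin.symm a).2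
    have hinj : ∀ a a', a ≠ a' → pt₀ a ≠ pt₀ a' := by
      intro a a' haa h
      apply haa
      rw [hpt₀, hpt₀] at h
      exact S'.equivFin.symm.injective (Subtype.ext h)
    have hgen : ∀ q, aeval γ q = 0 → P ∣ q := by
      intro q hq
      by_contra hPq
      have h2 := hGEX N r (r * q.totalDegree + 1) q.totalDegree k P q (tl y₀) γ hP hγP hγl hPq
        le_rfl (by rw [hq]; exact dvd_zero _)
      omega
    have hTiP : P ∣ aeval (it (it F n₁) i) P :=
      Ideal.mem_span_singleton.mp ((hsT.it i).inv _ (Ideal.mem_span_singleton_self P))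
    have hKi : KI (Ideal.span {P}) (it (it F n₁) i) (m ^ (n₁ * i)) := by
      have h2 := ki_it hsT.inv (ki_it hs.inv hK n₁) i
      rwa [← pow_mul] at h2
    obtain ⟨Q, hQP, hQd, hQX⟩ := hMUX N r S'.card (m ^ (n₁ * i) * s)
      ((d ^ n₁) ^ i * (m ^ (n₁ * i) * s)) k (KF N k) P (it (it F n₁) i) S pt₀ γ z hP hTiP hgen
      hz0 hzP hzT hS0 (fun a => by
        have h2 := hxV _ (hptS a) _ hSV
        rw [up, eval_rename] at h2
        exact h2) (by
      intro κ
      obtain ⟨Lp, hLh, hL0, hLS, hLx, hLκ⟩ := hLNP N S'.card s k S (fun a => tl (pt₀ a)) hN2 hs1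
        hS0 (fun a => hS'tl _ (hpt' a)) (fun a a' haa => hS'np _ (hpt' a) _ (hpt' a')
          (hinj a a' haa)) κ
      obtain ⟨Z, hZ⟩ := hPEN N s k S Lp ρ hs1 hSh hLh hS0 hL0 hLS hρ0
      refine ⟨Lp, Z, hLx, hLκ, fun ε hε => ?_⟩
      obtain ⟨hε0, hεs, hερ⟩ := hZ ε hε
      have hrad := hRDP N r k P ρ (S + C ε * Lp) Aρ Bρ hP hρ hε0 hεs hερ
      have hεh : (S + C ε * Lp).IsHomogeneous s := hSh.add (hLh.C_mul ε)
      have hεu : (up (S + C ε * Lp)).IsHomogeneous s := hεh.rename_isHomogeneous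
      obtain ⟨s', Q', hs', hQ'h, hQ'P, hQ'v⟩ := hKi s (up (S + C ε * Lp)) hεu (by
        rw [Ideal.mem_span_singleton]
        exact Pool.Agent.H49.VZ.not_dvd_up hP hε0)
      obtain ⟨G, hGd, hG⟩ := hNSX N r ((d ^ n₁) ^ i * s') s k P (aeval (it (it F n₁) i) Q')
        (S + C ε * Lp) hP hrad (aeval_hom hTih hQ'h) hεh (fun w hw hw' => by
          rw [Pool.Agent.H18.HIT.eval_aeval]
          exact hQ'v w (zer_span.mpr hw) hw')
      refine ⟨Q', G, fun h => hQ'P (Ideal.mem_span_singleton.mpr h),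
        hQ'h.totalDegree_le.trans hs', hGd.trans (Nat.mul_le_mul_left _ hs'), hG⟩)
    have hcard := hGEX N r S'.card (m ^ (n₁ * i) * s) k P Q (tl y₀) γ hP hγP hγl hQP hQd hQX
    have h9 : e ^ (n₁ * i) ≤ r * (r * (m ^ (n₁ * i) * s)) :=
      hbig.trans (Nat.mul_le_mul_left _ hcard)
    have h10 : r * (r * (m ^ (n₁ * i) * s)) = r * (r * s) * m ^ (n₁ * i) := by ring
    rw [h10] at h9
    exact absurd h9 (not_le.mpr hi)
  refine ⟨x, hxP, fun n => ?_, fun c hc => hmain c ?_⟩
  · have h1 := hxb n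
    rw [map_mul] at h1
    exact left_ne_zero_of_mul h1
  · rw [hV]
    intro n
    rw [pmap_it_iterate]
    exact hc _

end Pool.Agent.H8.BV
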