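import Pool.Agent.H18.VZ.Targets
import Pool.Agent.H8.BIG.Targets

/-!
# Large topological degree on arbitrary varieties: definitions and targets

`P` is a form in `X 0, ..., X N` which is irreducible and monic in `X 0`; `P = 0` is the cone over a
model of the variety. A totally invariant hypersurface of `P = 0` would have an image of too large
multiplicity.
-/

open MvPolynomial
open Pool.Agent.H12.ZD (pmap)
open Pool.Agent.H18.HIT Pool.Agent.H18.HX Pool.Agent.H18.VZ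
open Pool.Agent.H8.BIG (KF line)

namespace Pool.Agent.H8.BV

section defs

variable {L N : ℕ} {k : Type} [Field k]

/-- on the variety `I = 0`, the map `T` maps the zeros of a form of degree `s` into the zeros of a
form of degree at most `m s` -/
def KI (I : Ideal (Po L k)) (T : Tup L k) (m : ℕ) : Prop :=
  ∀ (s : ℕ) (h : Po L k), h.IsHomogeneous s → h ∉ I →
    ∃ (s' : ℕ) (h' : Po L k), s' ≤ m * s ∧ h'.IsHomogeneous s' ∧ h' ∉ I ∧
      ∀ y, Zer I y → eval y h = 0 → eval (pmap T y) h' = 0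

/-- the last `N` coordinates -/
def tl (x : Fin (N + 1) → k) : Fin N → k := fun i => x i.succ

/-- the tuple `(P, T 1, ..., T N)` -/
noncomputable def pt (P : Po (N + 1) k) (T : Tup (N + 1) k) : Tup (N + 1) k :=
  Fin.cons P (fun i : Fin N => T i.succ)

end defs

/-! ## A. Germs of curves on the hypersurface -/

/-- the jacobian of the tuple `(P, T 1, ..., T N)` -/
def T_JAC : Prop := ∀ (N : ℕ) (k : Type) [Field k] [CharZero k] (P : Po (N + 1) k)
  (T : Tup (N + 1) k), Irreducible P → Mny P → Slf (Ideal.span {P}) T → ¬ P ∣ jac (pt P T)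

/-- a germ of a curve can be lifted through `T` -/
def T_LSX : Prop := ∀ (N : ℕ) (k K : Type) [Field k] [Field K] [Algebra k K] (P : Po (N + 1) k)
  (T : Tup (N + 1) k) (x : Fin (N + 1) → k) (γ : Fin (N + 1) → PowerSeries K),
  P ∣ aeval T P → eval x P = 0 → eval x (jac (pt P T)) ≠ 0 →
  eval (pmap T x) (pderiv 0 P) ≠ 0 → aeval γ P = 0 →
  (∀ i, PowerSeries.constantCoeff (γ i) = algebraMap k K (pmap T x i)) →
  ∃ γ' : Fin (N + 1) → PowerSeries K,
    (∀ i, PowerSeries.constantCoeff (γ' i) = algebraMap k K (x i)) ∧ aeval γ' P = 0 ∧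
    ∀ i, aeval γ' (T i) = γ i

/-- a germ of a curve can be lifted through an iterate of `T` -/
def T_LIX : Prop := ∀ (N n : ℕ) (k K : Type) [Field k] [Field K] [Algebra k K]
  (P : Po (N + 1) k) (T : Tup (N + 1) k) (x : Fin (N + 1) → k)
  (γ : Fin (N + 1) → PowerSeries K), P ∣ aeval T P → eval x P = 0 →
  (∀ j, j ≤ n → eval ((pmap T)^[j] x) (jac (pt P T)) ≠ 0 ∧
    eval ((pmap T)^[j] x) (pderiv 0 P) ≠ 0) → aeval γ P = 0 →
  (∀ i, PowerSeries.constantCoeff (γ i) = algebraMap k K ((pmap T)^[n] x i)) →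
  ∃ γ' : Fin (N + 1) → PowerSeries K,
    (∀ i, PowerSeries.constantCoeff (γ' i) = algebraMap k K (x i)) ∧ aeval γ' P = 0 ∧
    ∀ i, aeval γ' (it T n i) = γ i

/-- the germ over the generic line through the projection of `y` -/
def T_GLX : Prop := ∀ (N : ℕ) (k : Type) [Field k] (P : Po (N + 1) k) (y : Fin (N + 1) → k),
  eval y P = 0 → eval y (pderiv 0 P) ≠ 0 →
  ∃ γ : Fin (N + 1) → PowerSeries (KF N k),
    (∀ i, PowerSeries.constantCoeff (γ i) = algebraMap k (KF N k) (y i)) ∧ aeval γ P = 0 ∧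
    ∀ i : Fin N, γ i.succ = line (tl y) i

/-- the norm of a polynomial and its degree -/
def T_NRD : Prop := ∀ (N r μ : ℕ) (k : Type) [Field k] (P Q : Po (N + 1) k), Hyp P r →
  ¬ P ∣ Q → Q.totalDegree ≤ μ → ∃ (R : Po N k) (A B : Po (N + 1) k), R ≠ 0 ∧
    R.totalDegree ≤ r * μ ∧ up R = A * P + B * Q

/-- the order of a polynomial along the germ over the generic line -/
def T_GEX : Prop := ∀ (N r E μ : ℕ) (k : Type) [Field k] (P Q : Po (N + 1) k) (y : Fin N → k)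
  (γ : Fin (N + 1) → PowerSeries (KF N k)), Hyp P r → aeval γ P = 0 →
  (∀ i : Fin N, γ i.succ = line y i) → ¬ P ∣ Q → Q.totalDegree ≤ μ →
  PowerSeries.X ^ E ∣ aeval γ Q → E ≤ r * μ

/-! ## B. The multiplicity of the image of a hypersurface -/

/-- pencils of linear maps, almost all of them not injective, have a polynomial kernel -/
def T_LAI : Prop := ∀ (k : Type) [Field k] [Infinite k] (V U : Type) [AddCommGroup V]
  [Module k V] [Module.Finite k V] [AddCommGroup U] [Module k U] (A B : V →ₗ[k] U)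
  (Z : Finset k), (∀ ε : k, ε ∉ Z → ∃ w : V, w ≠ 0 ∧ A w + ε • B w = 0) →
  ∃ (J : ℕ) (w : ℕ → V), w 0 ≠ 0 ∧ A (w 0) = 0 ∧ (∀ j, A (w (j + 1)) + B (w j) = 0) ∧
    ∀ j, J ≤ j → w j = 0

/-- the multiplicity of the image of `S = 0` at a point with many preimages on `S = 0` -/
def T_MUX : Prop := ∀ (N r E μ ν : ℕ) (k K : Type) [Field k] [Infinite k] [Field K] [Algebra k K]
  (P : Po (N + 1) k) (T : Tup (N + 1) k) (S : Po N k) (x : Fin E → Fin (N + 1) → k)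
  (γ : Fin (N + 1) → PowerSeries K) (z : Fin E → Fin (N + 1) → PowerSeries K),
  Hyp P r → P ∣ aeval T P → (∀ q, aeval γ q = 0 → P ∣ q) →
  (∀ a i, PowerSeries.constantCoeff (z a i) = algebraMap k K (x a i)) →
  (∀ a, aeval (z a) P = 0) → (∀ a i, aeval (z a) (T i) = γ i) → S ≠ 0 →
  (∀ a, eval (tl (x a)) S = 0) →
  (∀ ρ : Fin E → Fin E → k, ∃ (L : Po N k) (Z : Finset k), (∀ a, eval (tl (x a)) L ≠ 0) ∧
    (∀ a b, a ≠ b → eval (tl (x a)) L ≠ ρ a b * eval (tl (x b)) L) ∧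
    ∀ ε : k, ε ∉ Z → ∃ Q G : Po (N + 1) k, ¬ P ∣ Q ∧ Q.totalDegree ≤ μ ∧
      G.totalDegree ≤ ν ∧ P ∣ aeval T Q - up (S + C ε * L) * G) →
  ∃ Q : Po (N + 1) k, ¬ P ∣ Q ∧ Q.totalDegree ≤ μ ∧ PowerSeries.X ^ E ∣ aeval γ Q

/-- points of a fibre with different projections to projective space -/
def T_CLX : Prop := ∀ (N r D : ℕ) (k : Type) [Field k] (P : Po (N + 1) k) (T : Tup (N + 1) k)
  (y : Fin (N + 1) → k) (S : Finset (Fin (N + 1) → k)), Hyp P r → 1 ≤ D →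
  (∀ i, (T i).IsHomogeneous D) → y ≠ 0 → (∀ x ∈ S, eval x P = 0 ∧ pmap T x = y) →
  ∃ S' ⊆ S, (∀ x ∈ S', tl x ≠ 0) ∧
    (∀ x ∈ S', ∀ x' ∈ S', x ≠ x' → ¬ Prp (tl x) (tl x')) ∧ S.card ≤ r * D * S'.card

/-- a power of a general linear form -/
def T_LNP : Prop := ∀ (N E s : ℕ) (k : Type) [Field k] [Infinite k] (S : Po N k)
  (x : Fin E → Fin N → k), 2 ≤ N → 1 ≤ s → S ≠ 0 → (∀ a, x a ≠ 0) →
  (∀ a b, a ≠ b → ¬ Prp (x a) (x b)) → ∀ ρ : Fin E → Fin E → k,
  ∃ L : Po N k, L.IsHomogeneous s ∧ L ≠ 0 ∧ (∀ q, Irreducible q → q ∣ S → ¬ q ∣ L) ∧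
    (∀ a, eval (x a) L ≠ 0) ∧ ∀ a b, a ≠ b → eval (x a) L ≠ ρ a b * eval (x b) L

/-- the general member of a pencil is squarefree and prime to `ρ` -/
def T_PEN : Prop := ∀ (N s : ℕ) (k : Type) [Field k] [CharZero k] (S L ρ : Po N k), 1 ≤ s →
  S.IsHomogeneous s → L.IsHomogeneous s → S ≠ 0 → L ≠ 0 →
  (∀ q, Irreducible q → q ∣ S → ¬ q ∣ L) → ρ ≠ 0 →
  ∃ Z : Finset k, ∀ ε : k, ε ∉ Z → S + C ε * L ≠ 0 ∧ Squarefree (S + C ε * L) ∧
    ∀ q, Irreducible q → q ∣ S + C ε * L → ¬ q ∣ ρ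

/-- radical ideals -/
def T_RDP : Prop := ∀ (N r : ℕ) (k : Type) [Field k] (P : Po (N + 1) k) (ρ h : Po N k)
  (A B : Po (N + 1) k), Hyp P r → up ρ = A * P + B * pderiv 0 P → h ≠ 0 → Squarefree h →
  (∀ q, Irreducible q → q ∣ h → ¬ q ∣ ρ) → (Ideal.span {P, up h}).IsRadical

/-- membership of a form which vanishes on the zeros of a radical ideal -/
def T_NSX : Prop := ∀ (N r a s : ℕ) (k : Type) [Field k] [IsAlgClosed k] (P c : Po (N + 1) k)
  (h : Po N k), Hyp P r → (Ideal.span {P, up h}).IsRadical → c.IsHomogeneous a →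
  h.IsHomogeneous s → (∀ y, eval y P = 0 → eval y (up h) = 0 → eval y c = 0) →
  ∃ G : Po (N + 1) k, G.totalDegree ≤ a ∧ P ∣ c - up h * G

/-! ## C. Fibres over a totally invariant subvariety -/

/-- norms of functions which do not vanish on a totally invariant subvariety -/
def T_NRV : Prop := ∀ (N E : ℕ) (k : Type) [Field k] (P : Po (N + 1) k) (T : Tup (N + 1) k)
  (θ Δ : Po (N + 1) k) (V : Ideal (Po (N + 1) k)), Bas P T E θ Δ → V.IsPrime → P ∈ V →
  Tot P T E θ V → Δ ∉ V → ∀ q, q ∉ V → ∃ c A : Po (N + 1) k, c ∉ V ∧ P ∣ aeval T c - A * q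

/-- preimages of points of a totally invariant subvariety -/
def T_TOV : Prop := ∀ (N E : ℕ) (k : Type) [Field k] (P : Po (N + 1) k) (T : Tup (N + 1) k)
  (θ Δ : Po (N + 1) k) (V : Ideal (Po (N + 1) k)), Bas P T E θ Δ → P ∈ V →
  Tot P T E θ V → ∀ x : Fin (N + 1) → k, eval x P = 0 → (∀ q ∈ V, eval (pmap T x) q = 0) →
  eval (pmap T x) Δ ≠ 0 → ∀ q ∈ V, eval x q = 0

/-- the fibres of the iterates over the general point of a totally invariant subvariety -/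
def T_FBV : Prop := ∀ (N E : ℕ) (k : Type) [Field k] (P : Po (N + 1) k) (T : Tup (N + 1) k)
  (V : Ideal (Po (N + 1) k)) (cG q₀ : Po (N + 1) k), P ∣ aeval T P → V.IsPrime →
  (∀ q, q ∉ V → ∃ c A : Po (N + 1) k, c ∉ V ∧ P ∣ aeval T c - A * q) → cG ∉ V →
  (∀ y, eval y P = 0 → eval y cG ≠ 0 → ∃ S : Finset (Fin (N + 1) → k), S.card = E ∧
    ∀ x ∈ S, eval x P = 0 ∧ pmap T x = y) → q₀ ∉ V →
  ∀ n : ℕ, ∃ c : Po (N + 1) k, c ∉ V ∧ ∀ y, eval y P = 0 → eval y c ≠ 0 →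
    ∃ S : Finset (Fin (N + 1) → k), S.card = E ^ n ∧ ∀ x ∈ S, eval x P = 0 ∧
      (pmap T)^[n] x = y ∧ ∀ j, j ≤ n → eval ((pmap T)^[j] x) q₀ ≠ 0

/-! ## D. From an arbitrary variety to a hypersurface -/

/-- the projection is surjective -/
def T_SUR : Prop := ∀ (L N : ℕ) (k : Type) [Field k] [IsAlgClosed k] (I : Ideal (Po L k))
  [I.IsPrime] (l : Fin (N + 1) → Po L k) (P : Po (N + 1) k),
  (∀ q : Po (N + 1) k, aeval l q ∈ I ↔ P ∣ q) →
  (∀ i, ∃ Q : Polynomial (Po N k), Q.Monic ∧ evg (fun j : Fin N => l j.succ) (X i) Q ∈ I) →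
  ∀ y : Fin (N + 1) → k, eval y P = 0 → ∃ x, Zer I x ∧ ∀ i, eval x (l i) = y i

/-- transfer of the condition on the images of hypersurfaces -/
def T_VKT : Prop := ∀ (L N r δ d m : ℕ) (k : Type) [Field k] [IsAlgClosed k] [CharZero k]
  (I : Ideal (Po L k)) [I.IsPrime] (l : Fin (N + 1) → Po L k) (P : Po (N + 1) k) (Δ : Po N k)
  (g : Tup L k) (F : Tup (N + 1) k), Pro I l P r Δ δ →
  (∀ c ∈ I, ∀ t, homogeneousComponent t c ∈ I) → (∀ i, (g i).IsHomogeneous d) →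
  (∀ c ∈ I, aeval g c ∈ I) → (∀ i, (F i).IsHomogeneous (d + δ)) →
  (∀ i, aeval (fun j : Fin N => l j.succ) Δ * aeval g (l i) - aeval l (F i) ∈ I) →
  (∀ y : Fin (N + 1) → k, eval y P = 0 → ∃ x, Zer I x ∧ ∀ i, eval x (l i) = y i) →
  KI I g m → KI (Ideal.span {P}) F (m + δ)

/-! ## E. The theorem for hypersurfaces -/

/-- maps of large topological degree on a hypersurface -/
def T_BVH (k : Type) [Field k] : Prop := ∀ (N r d e m : ℕ) (P b : Po (N + 1) k)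
  (F : Tup (N + 1) k), 1 ≤ N → Hyp P r → r ≤ d → 2 ≤ d → (∀ i, (F i).IsHomogeneous d) →
  Slf (Ideal.span {P}) F → Cvi (Ideal.span {P}) F (d * e) → KI (Ideal.span {P}) F m → m < e →
  (∃ t, b.IsHomogeneous t) → ¬ P ∣ b →
  ∃ x : Fin (N + 1) → k, eval x P = 0 ∧ (∀ n : ℕ, eval ((pmap F)^[n] x) b ≠ 0) ∧
    ∀ c : Po (N + 1) k, (∀ n : ℕ, eval ((pmap F)^[n] x) c = 0) → P ∣ c

end Pool.Agent.H8.BV
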