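import Pool.Agent.H8.BV.Core
import Pool.Agent.H8.BIG.Irr
import Pool.Agent.H18.VZ.VarZ

/-!
# Large topological degree on arbitrary varieties: assembly
-/

open MvPolynomial
open Pool.Agent.H12.ZD (pmap)
open Pool.Agent.H18.HIT Pool.Agent.H18.HX Pool.Agent.H18.VZ

namespace Pool.Agent.H8.BV

section

variable {L : ℕ} {k : Type} [Field k] {I : Ideal (Po L k)} {T : Tup L k}

/-- it suffices to consider irreducible forms -/
theorem ki_of_irr [hI : I.IsPrime] {m : ℕ}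
    (h : ∀ (s : ℕ) (q : Po L k), q.IsHomogeneous s → Irreducible q → q ∉ I →
      ∃ (s' : ℕ) (q' : Po L k), s' ≤ m * s ∧ q'.IsHomogeneous s' ∧ q' ∉ I ∧
        ∀ y, Zer I y → eval y q = 0 → eval (pmap T y) q' = 0) : KI I T m := by
  intro s q
  induction q using UniqueFactorizationMonoid.induction_on_prime generalizing s with
  | h₁ => exact fun _ h0 => absurd (Ideal.zero_mem _) h0
  | h₂ x hx =>
    intro _ _
    refine ⟨0, 1, Nat.zero_le _, isHomogeneous_one _ _, ?_, fun y _ hy => ?_⟩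
    · exact fun h1 => hI.ne_top ((Ideal.eq_top_iff_one I).mpr h1)
    · exfalso
      have h1 := (hx.map (eval y)).ne_zero
      exact h1 hy
  | h₃ a p ha hp ih =>
    intro hr hI'
    obtain ⟨s₁, s₂, hst, hps, hat⟩ := Pool.Agent.H8.BIG.homog_mul hr hp.ne_zero ha
    obtain ⟨t₁, q₁, h1, h2, h3, h4⟩ := h s₁ p hps hp.irreducible
      (fun h0 => hI' (I.mul_mem_right _ h0))
    obtain ⟨t₂, q₂, h5, h6, h7, h8⟩ := ih s₂ hat (fun h0 => hI' (I.mul_mem_left _ h0))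
    refine ⟨t₁ + t₂, q₁ * q₂, ?_, h2.mul h6, ?_, fun y hy hy0 => ?_⟩
    · rw [← hst, Nat.mul_add]
      exact Nat.add_le_add h1 h5
    · exact fun h0 => (hI.mem_or_mem h0).elim h3 h7
    · rw [map_mul] at hy0 ⊢
      rcases mul_eq_zero.mp hy0 with h0 | h0
      · rw [h4 y hy h0, zero_mul]
      · rw [h8 y hy h0, mul_zero]

/-- the number `m` is positive -/
theorem ki_pos [hI : I.IsPrime] (hhom : ∀ c ∈ I, ∀ t, homogeneousComponent t c ∈ I)
    (hne : ∃ i, X i ∉ I) {m : ℕ} (h : KI I T m) : 1 ≤ m := by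
  by_contra hm
  have hm0 : m = 0 := by omega
  subst hm0
  obtain ⟨i, hi⟩ := hne
  obtain ⟨s, q, hs, hq, hqI, hv⟩ := h 1 (X i) (isHomogeneous_X _ _) hi
  have hs0 : s = 0 := by omega
  subst hs0
  have h1 : q = C (coeff 0 q) := totalDegree_eq_zero_iff_eq_C.mp
    (Nat.le_zero.mp hq.totalDegree_le)
  have hz : Zer I (0 : Fin L → k) := by
    intro c hc
    have h2 := hhom c hc 0
    rw [homogeneousComponent_zero] at h2
    have h3 : coeff 0 c = 0 := by
      by_contra h4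
      apply hI.ne_top
      rw [Ideal.eq_top_iff_one]
      have h5 := I.mul_mem_left (C (coeff 0 c)⁻¹) h2
      rwa [← C_mul, inv_mul_cancel₀ h4, C_1] at h5
    rw [← constantCoeff_eq] at h3
    rw [eval_zero]
    exact h3
  have h2 := hv 0 hz (by rw [eval_X]; rfl)
  rw [h1, eval_C] at h2
  apply hqI
  rw [h1, h2, C_0]
  exact I.zero_mem

end

section

variable {L : ℕ} {k : Type} [Field k] [IsAlgClosed k] [CharZero k] {I : Ideal (Po L k)}

theorem varB (hZ : T_BVH k) (hNSI : T_NSI) (hPVI : T_PVI) (hNFA : T_NFA) (hNFB : T_NFB)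
    (hNFC : T_NFC) (hLFT : T_LFT) (hTWI : T_TWI) (hTRV : T_TRV) (hSUR : T_SUR) (hVKT : T_VKT)
    (hI : I.IsPrime) (hhom : ∀ c ∈ I, ∀ t, homogeneousComponent t c ∈ I) (hne : ∃ i, X i ∉ I)
    (f : Tup L k) (b : Po L k) (d e m n t : ℕ) (hd : 1 ≤ d) (hf : ∀ i, (f i).IsHomogeneous d)
    (hinv : ∀ c ∈ I, aeval f c ∈ I) (hcov : Pvi I f e) (hn : 1 ≤ n) (hK : KI I (it f n) m)
    (hm : m < e ^ n) (hb : b.IsHomogeneous t) (hbI : b ∉ I) :
    ∃ x : Fin L → k, Zer I x ∧ (∀ j : ℕ, (pmap f)^[j] x ≠ 0) ∧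
      (∀ j : ℕ, eval ((pmap f)^[j] x) b ≠ 0) ∧
      ∀ (s : ℕ) (h : Po L k), h.IsHomogeneous s → (∀ j : ℕ, eval ((pmap f)^[j] x) h = 0) →
        h ∈ I := by
  have hm1 : 1 ≤ m := ki_pos hhom hne hK
  have he : 1 ≤ e := by
    rcases Nat.eq_zero_or_pos e with h | h
    · rw [h, zero_pow (by omega)] at hm
      exact absurd hm (Nat.not_lt_zero _)
    · exact h
  have hsf : Slf I f := slf_of_cvi hNSI he hinv hcov.cvi
  obtain ⟨N, l, hN, hl1, hind, hint, hden⟩ := hNFA L k I hhom hne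
  have hl0 : ∃ Q : Polynomial (Po N k), Q.Monic ∧
      evg (fun j : Fin N => l j.succ) (l 0) Q ∈ I := int_all hint _
  obtain ⟨P, r, hP, hker⟩ := hNFB L N k I l hhom hl1 hind hl0
  obtain ⟨Δ, δ, hpro⟩ := hNFC L N r k I l P hN hhom hl1 hind hint hden hP hker
  have hr : 1 ≤ r := by
    by_contra hr0
    have hr0' : r = 0 := by omega
    apply hpro.hyp.irr.not_isUnit
    have h1 : P.totalDegree = 0 := by
      have := hpro.hyp.hom.totalDegree_le
      omega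
    rw [totalDegree_eq_zero_iff_eq_C] at h1
    rw [h1, isUnit_map_iff, isUnit_iff_ne_zero]
    intro h0
    rw [h0, C_0] at h1
    exact hpro.hyp.irr.ne_zero h1
  have hδ : 1 ≤ δ := hr.trans hpro.le
  -- the iterate
  obtain ⟨j, hj, hj'⟩ := exists_pow_lt (1 + δ) m (e ^ n) hm
  have hj'' : m ^ j + δ < e ^ (n * j) := by
    rw [pow_mul]
    refine lt_of_le_of_lt ?_ hj'
    have h1 : 1 ≤ m ^ j := Nat.one_le_pow _ _ hm1
    nlinarith
  obtain ⟨J, hJ⟩ : ∃ J, J = n * j := ⟨_, rfl⟩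
  rw [← hJ] at hj''
  have hJ1 : 1 ≤ J := by
    rw [hJ]
    exact Nat.mul_pos hn hj
  have hgJ := it_hom hf J
  have hsJ := hsf.it J
  obtain ⟨F, hF, hFl, hFP⟩ := hLFT L N r δ (d ^ J) k I l P Δ (it f J) hpro hhom hgJ hsJ.inv
  have hdJ : 1 ≤ d ^ J := Nat.one_le_pow _ _ hd
  have hsF : Slf (Ideal.span {P}) F := lift_slf hpro hsJ hF (by omega) hFl hFP
  have hcJ := hPVI L d e J k I f hf hsf hcov
  have hcF := hTWI L N r δ (d ^ J) (e ^ J) k I l P Δ (it f J) F hpro hhom hgJ hsJ hF hFl hcJ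
  have hKJ : KI I (it f J) (m ^ j) := by
    have h1 := ki_it (hsf.it n).inv hK j
    rwa [it_mul, ← hJ] at h1
  have hKF := hVKT L N r δ (d ^ J) (m ^ j) k I l P Δ (it f J) F hpro hhom hgJ hsJ.inv hF hFl
    (hSUR L N k I l P hker hint) hKJ
  -- the polynomial which must not vanish
  obtain ⟨i0, hi0⟩ := hne
  set B : Po L k := b * X i0 with hBdef
  have hBh : B.IsHomogeneous (t + 1) := hb.mul (isHomogeneous_X k i0)
  have hBI : B ∉ I := fun h => (hI.mem_or_mem h).elim hbI hi0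
  have hB1h : (∏ i ∈ Finset.range J, aeval (it f i) B).IsHomogeneous
      (∑ i ∈ Finset.range J, d ^ i * (t + 1)) :=
    IsHomogeneous.prod _ _ _ fun i _ => aeval_hom (it_hom hf i) hBh
  have hB1I : (∏ i ∈ Finset.range J, aeval (it f i) B) ∉ I :=
    prod_notMem _ _ fun i _ hi => hBI ((hsf.it i).inj B hi)
  obtain ⟨b', hb', hPb', htr⟩ := hTRV L N r δ (d ^ J) _ k I l P Δ (it f J) F _ hpro hhom hgJ
    hsJ.inv hF hFl hB1h hB1I
  obtain ⟨y, hy, hyb, hyd⟩ := hZ N r (d ^ J + δ) (e ^ J) (m ^ j + δ) P b' F hpro.one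
    hpro.hyp (hpro.le.trans (Nat.le_add_left _ _)) (by omega) hF hsF hcF hKF hj'' hb' hPb'
  obtain ⟨a, ha, hab, had⟩ := htr y hy hyb hyd
  have hBf : ∀ i, eval ((pmap f)^[i] a) B ≠ 0 := by
    intro i
    have h1 := hab (i / J)
    rw [map_prod, Finset.prod_ne_zero_iff] at h1
    have h2 := h1 (i % J) (Finset.mem_range.mpr (Nat.mod_lt _ hJ1))
    rw [Pool.Agent.H18.HIT.eval_aeval, pmap_it, pmap_it_iterate, ← Function.iterate_add_apply,
      Nat.mod_add_div] at h2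
    exact h2
  refine ⟨a, ha, fun i h0 => ?_, fun i => ?_, fun s h hh hh0 => had s h hh fun i => ?_⟩
  · apply hBf i
    rw [h0, hBdef, map_mul, eval_X, Pi.zero_apply, mul_zero]
  · have h1 := hBf i
    rw [hBdef, map_mul] at h1
    exact left_ne_zero_of_mul h1
  · rw [pmap_it_iterate]
    exact hh0 _

end

end Pool.Agent.H8.BV
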